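import Pool.Agent.Lib.MP_e6fbad_gt.Mfd

open Set Filter Topology Function
open scoped Manifold

namespace Pool.Agent.Lib.MP_e6fbad_gt

variable {R : Type*} [TopologicalSpace R] [ChartedSpace ℂ R]

/-- Normalized projection: a holomorphic function whose fibres are the orbits of an involution. -/
structure Proj (p : R → ℂ) (τ : R → R) : Prop where
  hol : MDifferentiable 𝓘(ℂ) 𝓘(ℂ) p
  holτ : MDifferentiable 𝓘(ℂ) 𝓘(ℂ) τ
  inv : ∀ x, τ (τ x) = x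
  fib : ∀ x y, p x = p y ↔ (y = x ∨ y = τ x)

theorem Proj.comp_eq {p : R → ℂ} {τ : R → R} (P : Proj p τ) (x : R) : p (τ x) = p x :=
  ((P.fib x (τ x)).2 (Or.inr rfl)).symm

theorem Proj.finite_fiber {p : R → ℂ} {τ : R → R} (P : Proj p τ) (x : R) :
    (p ⁻¹' {p x}).Finite := by
  apply (toFinite {x, τ x}).subset
  intro y hy
  have := (P.fib x y).1 (by simpa using (mem_singleton_iff.1 hy).symm)
  simpa using this

theorem Proj.finite_fiber' {p : R → ℂ} {τ : R → R} (P : Proj p τ) (a : ℂ) :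
    (p ⁻¹' {a}).Finite := by
  by_cases h : ∃ x, p x = a
  · obtain ⟨x, rfl⟩ := h
    exact P.finite_fiber x
  · have : p ⁻¹' {a} = ∅ := by
      ext y
      simp only [mem_preimage, mem_singleton_iff, mem_empty_iff_false, iff_false]
      exact fun hy => h ⟨y, hy⟩
    rw [this]
    exact finite_empty

theorem Proj.finite_preimage {p : R → ℂ} {τ : R → R} (P : Proj p τ) {T : Set ℂ}
    (hT : T.Finite) : (p ⁻¹' T).Finite := by
  have : p ⁻¹' T = ⋃ t ∈ T, p ⁻¹' {t} := by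
    ext; simp
  rw [this]
  exact hT.biUnion fun t _ => P.finite_fiber' t

variable [IsManifold 𝓘(ℂ) 1 R]

theorem Proj.isOpen_range [T1Space R] {p : R → ℂ} {τ : R → R} (P : Proj p τ) :
    IsOpen (range p) := by
  rw [isOpen_iff_mem_nhds]
  rintro _ ⟨x, rfl⟩
  have := nhds_le_map (P.finite_fiber x) (Eventually.of_forall P.hol)
  apply this
  rw [mem_map]
  filter_upwards with y using mem_range_self y

/-- Bounded holomorphic functions on `R` are constant, when `R` is a double cover of a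
cofinite subset of the plane. -/
theorem const_of_bounded [T1Space R] [ConnectedSpace R] {p : R → ℂ} {τ : R → R} (P : Proj p τ)
    (hF : (range p)ᶜ.Finite) {h : R → ℂ} (hh : MDifferentiable 𝓘(ℂ) 𝓘(ℂ) h)
    {M : ℝ} (hM : ∀ x, ‖h x‖ ≤ M) : ∃ c, ∀ x, h x = c := by
  have hhτ : MDifferentiable 𝓘(ℂ) 𝓘(ℂ) (fun x => h (τ x)) := hh.comp P.holτ
  have hM0 : 0 ≤ M := by
    obtain ⟨x⟩ := (inferInstance : Nonempty R)
    exact (norm_nonneg _).trans (hM x)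
  have key : ∀ σ : R → ℂ, MDifferentiable 𝓘(ℂ) 𝓘(ℂ) σ → (∀ x, σ (τ x) = σ x) →
      ∀ M' : ℝ, (∀ x, ‖σ x‖ ≤ M') → ∃ c, ∀ x, σ x = c := by
    intro σ hσ hinv M' hM'
    have hfac : σ.FactorsThrough p := by
      intro x y hxy
      rcases (P.fib x y).1 hxy with h | h
      · rw [h]
      · rw [h, hinv]
    set Δ : ℂ → ℂ := Function.extend p σ 0 with hΔ
    have hΔp : ∀ x, Δ (p x) = σ x := fun x => hfac.extend_apply 0 x
    obtain ⟨c, hc⟩ := liouville_off_finite hF (f := Δ) (M := M') (by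
      intro z hz
      rw [notMem_compl_iff] at hz
      obtain ⟨x, rfl⟩ := hz
      exact descent (P.finite_fiber x) (Eventually.of_forall P.hol) (Eventually.of_forall hσ)
        (Eventually.of_forall hΔp)) (by
      intro z hz
      rw [notMem_compl_iff] at hz
      obtain ⟨x, rfl⟩ := hz
      rw [hΔp]
      exact hM' x)
    refine ⟨c, fun x => ?_⟩
    rw [← hΔp x]
    apply hc
    rw [notMem_compl_iff]
    exact mem_range_self x
  obtain ⟨s, hs⟩ := key (fun x => h x + h (τ x)) (hh.add hhτ)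
    (fun x => by simp only [P.inv]; ring) (M + M) (fun x => by
      refine (norm_add_le _ _).trans ?_
      exact add_le_add (hM x) (hM _))
  obtain ⟨r, hr⟩ := key (fun x => h x * h (τ x)) (hh.mul hhτ)
    (fun x => by simp only [P.inv]; ring) (M * M) (fun x => by
      rw [norm_mul]
      exact mul_le_mul (hM x) (hM _) (norm_nonneg _) hM0)
  obtain ⟨x₀⟩ := (inferInstance : Nonempty R)
  have hquad : ∀ x, (h x - h x₀) * (h x - h (τ x₀)) = 0 := by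
    intro x
    have h1 : h x + h (τ x) = h x₀ + h (τ x₀) := (hs x).trans (hs x₀).symm
    have h2 : h x * h (τ x) = h x₀ * h (τ x₀) := (hr x).trans (hr x₀).symm
    have h3 : h (τ x) = h x₀ + h (τ x₀) - h x := by rw [← h1]; ring
    rw [h3] at h2
    linear_combination (-1 : ℂ) * h2
  have hmem : ∀ x, h x ∈ ({h x₀, h (τ x₀)} : Set ℂ) := by
    intro x
    rcases mul_eq_zero.1 (hquad x) with h | h
    · left; exact sub_eq_zero.1 h
    · right; exact sub_eq_zero.1 h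
  have hpre : IsPreconnected (range h) := isPreconnected_range hh.continuous
  have hfin : (range h).Finite := (toFinite {h x₀, h (τ x₀)}).subset (by
    rintro _ ⟨x, rfl⟩
    exact hmem x)
  have hsub : (range h).Subsingleton := by
    by_contra hcon
    exact (IsPreconnected.infinite_of_nontrivial hpre (not_subsingleton_iff.1 hcon)) hfin
  exact ⟨h x₀, fun x => hsub (mem_range_self x) (mem_range_self x₀)⟩

theorem liouvilleSet_range [T1Space R] [ConnectedSpace R] {p : R → ℂ} {τ : R → R} (P : Proj p τ)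
    (hF : (range p)ᶜ.Finite) {q : R → ℂ} (hq : MDifferentiable 𝓘(ℂ) 𝓘(ℂ) q) :
    LiouvilleSet (range q) := by
  intro g hg ⟨M, hM⟩
  obtain ⟨c, hc⟩ := const_of_bounded P hF (h := fun x => g (q x)) (M := M) (by
    intro x
    exact ((hg (q x) (mem_range_self x)).mdifferentiableAt).comp x (hq x))
    (fun x => hM _ (mem_range_self x))
  refine ⟨c, ?_⟩
  rintro _ ⟨x, rfl⟩
  exact hc x

/-- Comparison of a zero of `q - q v` with the pole of `φ⁻¹`. -/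
theorem pole_bound {q φ : R → ℂ} {v : R}
    (hq : ∀ᶠ y in 𝓝 v, MDifferentiableAt 𝓘(ℂ) 𝓘(ℂ) q y)
    (hφ : ∀ᶠ y in 𝓝 v, MDifferentiableAt 𝓘(ℂ) 𝓘(ℂ) φ y)
    (hnz : ¬ ∀ᶠ y in 𝓝 v, φ y = 0) :
    ∃ (m : ℕ) (C : ℝ), ∀ᶠ y in 𝓝 v, y ≠ v → ‖q y - q v‖ ^ m * ‖(φ y)⁻¹‖ ≤ C := by
  have hvs := mem_chart_source ℂ v
  have hQ := analyticAt_chart hq
  have hΦ := analyticAt_chart hφ
  have hnz' : ¬ ∀ᶠ ζ in 𝓝 (chartAt ℂ v v), (φ ∘ (chartAt ℂ v).symm) ζ = 0 := by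
    intro h
    exact hnz (eventually_chart_iff.1 h)
  obtain ⟨m, g, hg, hg0, hfac⟩ := hΦ.exists_eventuallyEq_pow_smul_nonzero_iff.2 hnz'
  obtain ⟨C, hC⟩ := hQ.differentiableAt.isBigO_sub.bound
  have hQv : (q ∘ (chartAt ℂ v).symm) (chartAt ℂ v v) = q v := by
    simp [(chartAt ℂ v).left_inv hvs]
  have hgb : ∀ᶠ ζ in 𝓝 (chartAt ℂ v v), ‖g (chartAt ℂ v v)‖ / 2 < ‖g ζ‖ := by
    have h1 : ContinuousAt (fun ζ => ‖g ζ‖) (chartAt ℂ v v) := hg.continuousAt.norm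
    have h2 : ‖g (chartAt ℂ v v)‖ / 2 < ‖g (chartAt ℂ v v)‖ := by
      have : 0 < ‖g (chartAt ℂ v v)‖ := norm_pos_iff.2 hg0
      linarith
    exact h1.eventually (lt_mem_nhds h2)
  refine ⟨m, C ^ m * (‖g (chartAt ℂ v v)‖ / 2)⁻¹, ?_⟩
  have hall := (hfac.and (hC.and hgb))
  have hall2 := (tendsto_chart v).eventually hall
  filter_upwards [hall2, (chartAt ℂ v).open_source.mem_nhds hvs] with y hy hys hne
  obtain ⟨h1, h2, h3⟩ := hy
  simp only [comp_apply, (chartAt ℂ v).left_inv hys, (chartAt ℂ v).left_inv hvs, smul_eq_mul]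
    at h1 h2
  have hne2 : chartAt ℂ v y ≠ chartAt ℂ v v := fun h => hne ((chartAt ℂ v).injOn hys hvs h)
  have hd : 0 < ‖chartAt ℂ v y - chartAt ℂ v v‖ := norm_pos_iff.2 (sub_ne_zero.2 hne2)
  have hgpos : 0 < ‖g (chartAt ℂ v v)‖ / 2 := by
    have : 0 < ‖g (chartAt ℂ v v)‖ := norm_pos_iff.2 hg0
    linarith
  rw [h1, norm_inv, norm_mul, norm_pow]
  calc ‖q y - q v‖ ^ m * (‖chartAt ℂ v y - chartAt ℂ v v‖ ^ m * ‖g (chartAt ℂ v y)‖)⁻¹
      ≤ (C * ‖chartAt ℂ v y - chartAt ℂ v v‖) ^ m *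
        (‖chartAt ℂ v y - chartAt ℂ v v‖ ^ m * (‖g (chartAt ℂ v v)‖ / 2))⁻¹ := by
        have hCn : 0 ≤ C * ‖chartAt ℂ v y - chartAt ℂ v v‖ := (norm_nonneg _).trans h2
        have hCm := pow_nonneg hCn m
        refine mul_le_mul (pow_le_pow_left₀ (norm_nonneg _) h2 m) ?_ (by positivity) hCm
        apply inv_anti₀ (by positivity)
        gcongr
    _ = C ^ m * (‖g (chartAt ℂ v v)‖ / 2)⁻¹ := by
        rw [mul_pow, mul_inv]
        field_simp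

/-- The order of the pole of `Δ` at a point of `T` is finite. -/
theorem pole_order [T1Space R] {q φ₁ φ₂ : R → ℂ} {Δ : ℂ → ℂ} {v : R}
    (hfin : (q ⁻¹' {q v}).Finite)
    (hq : ∀ᶠ y in 𝓝 v, MDifferentiableAt 𝓘(ℂ) 𝓘(ℂ) q y)
    (hφ₁ : ∀ᶠ y in 𝓝 v, MDifferentiableAt 𝓘(ℂ) 𝓘(ℂ) φ₁ y)
    (hφ₂ : ∀ᶠ y in 𝓝 v, MDifferentiableAt 𝓘(ℂ) 𝓘(ℂ) φ₂ y)
    (hnz₁ : ¬ ∀ᶠ y in 𝓝 v, φ₁ y = 0) (hnz₂ : ¬ ∀ᶠ y in 𝓝 v, φ₂ y = 0)
    (hΔ : ∀ y, Δ (q y) = ((φ₁ y)⁻¹ - (φ₂ y)⁻¹) ^ 2) :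
    ∃ k : ℕ, ∀ j, k ≤ j → ∃ C : ℝ, ∀ᶠ z in 𝓝[≠] (q v), ‖z - q v‖ ^ j * ‖Δ z‖ ≤ C := by
  obtain ⟨m₁, C₁, h₁⟩ := pole_bound hq hφ₁ hnz₁
  obtain ⟨m₂, C₂, h₂⟩ := pole_bound hq hφ₂ hnz₂
  refine ⟨2 * max m₁ m₂, fun j hj => ⟨(C₁ + C₂) ^ 2, ?_⟩⟩
  have hsmall : ∀ᶠ y in 𝓝 v, ‖q y - q v‖ ≤ 1 := by
    have hqc : ContinuousAt q v := hq.self_of_nhds.continuousAt
    have h1 : ContinuousAt (fun y => ‖q y - q v‖) v := (hqc.sub continuousAt_const).norm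
    have h2 : ‖q v - q v‖ < 1 := by simp
    exact (h1.eventually (gt_mem_nhds h2)).mono fun y hy => hy.le
  have hev : ∀ᶠ y in 𝓝 v, y ≠ v → ‖q y - q v‖ ^ j * ‖Δ (q y)‖ ≤ (C₁ + C₂) ^ 2 := by
    filter_upwards [h₁, h₂, hsmall] with y h1 h2 h3 hne
    have h1' := h1 hne
    have h2' := h2 hne
    set r := ‖q y - q v‖ with hr
    have hr0 : 0 ≤ r := norm_nonneg _
    set M := max m₁ m₂ with hM
    have hb1 : r ^ M * ‖(φ₁ y)⁻¹‖ ≤ C₁ := by
      refine le_trans ?_ h1'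
      exact mul_le_mul_of_nonneg_right (pow_le_pow_of_le_one hr0 h3 (le_max_left _ _))
        (norm_nonneg _)
    have hb2 : r ^ M * ‖(φ₂ y)⁻¹‖ ≤ C₂ := by
      refine le_trans ?_ h2'
      exact mul_le_mul_of_nonneg_right (pow_le_pow_of_le_one hr0 h3 (le_max_right _ _))
        (norm_nonneg _)
    have hb3 : r ^ M * ‖(φ₁ y)⁻¹ - (φ₂ y)⁻¹‖ ≤ C₁ + C₂ := by
      calc r ^ M * ‖(φ₁ y)⁻¹ - (φ₂ y)⁻¹‖ ≤ r ^ M * (‖(φ₁ y)⁻¹‖ + ‖(φ₂ y)⁻¹‖) := by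
            gcongr
            exact norm_sub_le _ _
        _ = r ^ M * ‖(φ₁ y)⁻¹‖ + r ^ M * ‖(φ₂ y)⁻¹‖ := by ring
        _ ≤ C₁ + C₂ := add_le_add hb1 hb2
    rw [hΔ y, norm_pow]
    calc r ^ j * ‖(φ₁ y)⁻¹ - (φ₂ y)⁻¹‖ ^ 2 ≤ r ^ (2 * M) * ‖(φ₁ y)⁻¹ - (φ₂ y)⁻¹‖ ^ 2 := by
          gcongr ?_ * _
          exact pow_le_pow_of_le_one hr0 h3 hj
      _ = (r ^ M * ‖(φ₁ y)⁻¹ - (φ₂ y)⁻¹‖) ^ 2 := by ring
      _ ≤ (C₁ + C₂) ^ 2 := by
          gcongr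
  have hle := nhds_le_map hfin hq
  have h4 := hle (image_mem_map hev)
  rw [eventually_nhdsWithin_iff]
  filter_upwards [h4] with z hz hne
  obtain ⟨y, hy, rfl⟩ := hz
  apply hy
  rintro rfl
  exact hne rfl

end Pool.Agent.Lib.MP_e6fbad_gt
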