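import Mathlib

open Set Filter Topology
open scoped Manifold ContDiff

/-!
# Hyperelliptic involutions of Riemann surfaces of infinite type: definitions

The Riemann sphere is modelled by `OnePoint ℂ`. A Riemann surface is a connected Hausdorff
space `R` with a `ChartedSpace ℂ R` structure which is an analytic (`IsManifold 𝓘(ℂ) ω R`)
manifold over `ℂ`; its conformal automorphisms are the elements of `R ≃ₘ^ω⟮𝓘(ℂ), 𝓘(ℂ)⟯ R`.
-/

namespace Pool.Agent.Lib.MP_e6fbad_gt

/-- The affine coordinate `z` of the Riemann sphere `OnePoint ℂ` (with the junk value `0` at the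
point at infinity). -/
noncomputable def coordZ (z : OnePoint ℂ) : ℂ := z.elim 0 (fun w => w)

/-- The coordinate `1 / z` of the Riemann sphere `OnePoint ℂ`, which vanishes at infinity (with the
junk value `0` at the point `0`). -/
noncomputable def coordW (z : OnePoint ℂ) : ℂ := z.elim 0 (fun w => w⁻¹)

variable {R : Type*} [TopologicalSpace R] [ChartedSpace ℂ R]

/-- A map `f` from a Riemann surface `R` to the Riemann sphere is holomorphic: it is continuous, the
function `z ∘ f` is holomorphic wherever `f x ≠ ∞`, and `(1 / z) ∘ f` is holomorphic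
wherever `f x ≠ 0`. -/
def IsHolomorphicToSphere (f : R → OnePoint ℂ) : Prop :=
  Continuous f ∧
    (∀ x, f x ≠ OnePoint.infty → MDifferentiableAt 𝓘(ℂ) 𝓘(ℂ) (fun y => coordZ (f y)) x) ∧
    (∀ x, f x ≠ ((0 : ℂ) : OnePoint ℂ) → MDifferentiableAt 𝓘(ℂ) 𝓘(ℂ) (fun y => coordW (f y)) x)

/-- The branch sets allowed in the definition of a hyperelliptic Riemann surface of infinite type:
infinite discrete subsets `B` of the Riemann sphere such that the complement of the set
`derivedSet B` of accumulation points of `B` is connected. -/
def IsBranchSet (B : Set (OnePoint ℂ)) : Prop :=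
  B.Infinite ∧ (∀ b ∈ B, b ∉ derivedSet B) ∧ IsConnected (derivedSet B)ᶜ

/-- `π` is a holomorphic degree two branched covering of `R` onto the complement of
`derivedSet B` whose set of branch values is exactly `B`: it is holomorphic and proper as a map to
the complement of `derivedSet B`, it has exactly one preimage over the points of `B` and exactly
two preimages over the other points of the complement of `derivedSet B`. -/
structure IsDegreeTwoBranchedCovering (B : Set (OnePoint ℂ)) (π : R → OnePoint ℂ) : Prop where
  holomorphic : IsHolomorphicToSphere π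
  mapsTo : ∀ x, π x ∉ derivedSet B
  proper : ∀ K : Set (OnePoint ℂ), IsCompact K → K ⊆ (derivedSet B)ᶜ → IsCompact (π ⁻¹' K)
  card_fiber : ∀ z ∉ derivedSet B, z ∉ B → (π ⁻¹' {z}).ncard = 2
  card_fiber_branch : ∀ z ∈ B, (π ⁻¹' {z}).ncard = 1

/-- The conformal automorphism `τ` of `R` is a hyperelliptic involution of `R` with branch
locus `B`: it has order two and it is a deck transformation of a degree two branched covering from
`R` onto the complement of `derivedSet B` with set of branch values `B`. -/
def IsHyperellipticInvolution (B : Set (OnePoint ℂ)) (τ : R ≃ₘ^ω⟮𝓘(ℂ), 𝓘(ℂ)⟯ R) : Prop :=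
  IsBranchSet B ∧ τ ≠ Diffeomorph.refl 𝓘(ℂ) R ω ∧ (∀ x, τ (τ x) = x) ∧
    ∃ π : R → OnePoint ℂ, IsDegreeTwoBranchedCovering B π ∧ ∀ x, π (τ x) = π x

end Pool.Agent.Lib.MP_e6fbad_gt
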