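import Mathlib

open Set Filter Topology Function

namespace Pool.Agent.Lib.MP_e6fbad_gt

/-- Bounded holomorphic functions on `D` are constant. -/
def LiouvilleSet (D : Set ℂ) : Prop :=
  ∀ g : ℂ → ℂ, (∀ z ∈ D, DifferentiableAt ℂ g z) → (∃ M : ℝ, ∀ z ∈ D, ‖g z‖ ≤ M) →
    ∃ c, ∀ z ∈ D, g z = c

theorem eq_zero_of_growth {D : Set ℂ} (hD : IsOpen D) (hL : LiouvilleSet D) (n : ℕ) :
    ∀ (Θ : ℂ → ℂ) (C : ℝ) (K : Set ℂ), 0 ≤ C → IsCompact K → K ⊆ D →
      (∀ z ∈ D, DifferentiableAt ℂ Θ z) → (∀ z ∈ D, z ∉ K → ‖Θ z‖ ≤ C * (1 + ‖z‖) ^ n) →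
      {z | z ∈ D ∧ Θ z = 0}.Infinite → ∀ z ∈ D, Θ z = 0 := by
  induction n with
  | zero =>
    intro Θ C K hC hK hKD hd hb hinf
    have hcont : ContinuousOn Θ K := fun z hz => (hd z (hKD hz)).continuousAt.continuousWithinAt
    obtain ⟨M, hM⟩ := hK.exists_bound_of_continuousOn hcont
    obtain ⟨c, hc⟩ := hL Θ hd ⟨max M C, by
      intro z hz
      by_cases hzK : z ∈ K
      · exact (hM z hzK).trans (le_max_left _ _)
      · have := hb z hz hzK
        simp only [pow_zero, mul_one] at this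
        exact this.trans (le_max_right _ _)⟩
    obtain ⟨b, hb1, hb2⟩ := hinf.nonempty
    intro z hz
    rw [hc z hz, ← hc b hb1, hb2]
  | succ n ih =>
    intro Θ C K hC hK hKD hd hb hinf
    obtain ⟨b, hbD, hb0⟩ := hinf.nonempty
    obtain ⟨δ, hδ0, hδ⟩ : ∃ δ > 0, Metric.closedBall b δ ⊆ D := by
      have := Metric.nhds_basis_closedBall.mem_iff.1 (hD.mem_nhds hbD)
      exact this
    have hdO : DifferentiableOn ℂ Θ D := fun z hz => (hd z hz).differentiableWithinAt
    have hds : DifferentiableOn ℂ (dslope Θ b) D :=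
      (Complex.differentiableOn_dslope (hD.mem_nhds hbD)).2 hdO
    have hval : ∀ z, z ≠ b → dslope Θ b z = (z - b)⁻¹ * Θ z := by
      intro z hz
      rw [dslope_of_ne _ hz, slope_def_module, hb0, sub_zero, smul_eq_mul]
    have key : ∀ z ∈ D, dslope Θ b z = 0 := by
      apply ih (dslope Θ b) (C * (1 + (1 + ‖b‖) / δ)) (K ∪ Metric.closedBall b δ)
      · have : 0 ≤ ‖b‖ := norm_nonneg b
        positivity
      · exact hK.union (isCompact_closedBall b δ)
      · exact union_subset hKD hδ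
      · intro z hz
        exact hds.differentiableAt (hD.mem_nhds hz)
      · intro z hz hzK
        have hzK1 : z ∉ K := fun h => hzK (Or.inl h)
        have hzb : δ < ‖z - b‖ := by
          have : z ∉ Metric.closedBall b δ := fun h => hzK (Or.inr h)
          rw [Metric.mem_closedBall, dist_eq_norm, not_le] at this
          exact this
        have hzb0 : 0 < ‖z - b‖ := hδ0.trans hzb
        have hzne : z ≠ b := by
          intro h
          simp [h] at hzb0
        rw [hval z hzne, norm_mul, norm_inv]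
        have h1 := hb z hz hzK1
        have h2 : (1 + ‖z‖) ≤ (1 + (1 + ‖b‖) / δ) * ‖z - b‖ := by
          have h3 : ‖z‖ ≤ ‖z - b‖ + ‖b‖ := by
            have := norm_add_le (z - b) b
            simpa using this
          have h4 : (1 + ‖b‖) ≤ (1 + ‖b‖) / δ * ‖z - b‖ := by
            rw [div_mul_eq_mul_div, le_div_iff₀ hδ0]
            have : 0 ≤ ‖b‖ := norm_nonneg b
            nlinarith
          nlinarith
        have hpos : 0 ≤ (1 + ‖z‖) := by positivity
        calc ‖z - b‖⁻¹ * ‖Θ z‖ ≤ ‖z - b‖⁻¹ * (C * (1 + ‖z‖) ^ (n + 1)) := by gcongr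
          _ = C * (1 + ‖z‖) ^ n * (‖z - b‖⁻¹ * (1 + ‖z‖)) := by ring
          _ ≤ C * (1 + ‖z‖) ^ n * (1 + (1 + ‖b‖) / δ) := by
              gcongr
              rw [inv_mul_le_iff₀ hzb0]
              linarith
          _ = C * (1 + (1 + ‖b‖) / δ) * (1 + ‖z‖) ^ n := by ring
      · have hsub : {z | z ∈ D ∧ Θ z = 0} \ {b} ⊆ {z | z ∈ D ∧ dslope Θ b z = 0} := by
          rintro z ⟨⟨h1, h2⟩, h3⟩
          refine ⟨h1, ?_⟩
          rw [hval z h3, h2, mul_zero]
        exact (hinf.sdiff (finite_singleton b)).mono hsub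
    intro z hz
    by_cases hzb : z = b
    · rw [hzb, hb0]
    · have := key z hz
      rw [hval z hzb] at this
      rcases mul_eq_zero.1 this with h | h
      · exact absurd (inv_eq_zero.1 h) (sub_ne_zero.2 hzb)
      · exact h

end Pool.Agent.Lib.MP_e6fbad_gt
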