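import Mathlib

open Set Filter Topology Function
open scoped Manifold

namespace Pool.Agent.Lib.MP_e6fbad_gt

/-! Planar local lemmas -/

theorem eventually_const_of_deriv {P : ℂ → ℂ} {ζ₀ : ℂ} (hP : AnalyticAt ℂ P ζ₀)
    (h : ∀ᶠ ζ in 𝓝 ζ₀, deriv P ζ = 0) : ∀ᶠ ζ in 𝓝 ζ₀, P ζ = P ζ₀ := by
  have h2 := h.and hP.eventually_analyticAt
  obtain ⟨r, hr, hball⟩ := Metric.eventually_nhds_iff_ball.1 h2
  have hpre : IsPreconnected (Metric.ball ζ₀ r) := (convex_ball ζ₀ r).isPreconnected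
  have hd : DifferentiableOn ℂ P (Metric.ball ζ₀ r) := fun ζ hζ =>
    (hball ζ hζ).2.differentiableAt.differentiableWithinAt
  have heq : (Metric.ball ζ₀ r).EqOn (deriv P) 0 := fun ζ hζ => (hball ζ hζ).1
  filter_upwards [Metric.ball_mem_nhds ζ₀ hr] with ζ hζ
  exact Metric.isOpen_ball.is_const_of_deriv_eq_zero hpre hd heq hζ (Metric.mem_ball_self hr)

/-- Local descent of holomorphic functions along a nonconstant holomorphic map. -/
theorem descent_planar {P G Δ : ℂ → ℂ} {ζ₀ : ℂ} (hP : AnalyticAt ℂ P ζ₀) (hG : AnalyticAt ℂ G ζ₀)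
    (hnc : ¬ ∀ᶠ ζ in 𝓝 ζ₀, P ζ = P ζ₀) (hΔ : ∀ᶠ ζ in 𝓝 ζ₀, Δ (P ζ) = G ζ) :
    DifferentiableAt ℂ Δ (P ζ₀) := by
  have hopen : 𝓝 (P ζ₀) ≤ map P (𝓝 ζ₀) :=
    hP.eventually_constant_or_nhds_le_map_nhds.resolve_left hnc
  have hder : ∀ᶠ ζ in 𝓝[≠] ζ₀, deriv P ζ ≠ 0 := by
    rcases hP.deriv.eventually_eq_zero_or_eventually_ne_zero with h | h
    · exact absurd (eventually_const_of_deriv hP h) hnc
    · exact h
  have hgood : ∀ᶠ ζ in 𝓝 ζ₀, ζ ≠ ζ₀ → DifferentiableAt ℂ Δ (P ζ) := by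
    rw [eventually_nhdsWithin_iff] at hder
    filter_upwards [hder, hP.eventually_analyticAt, hG.eventually_analyticAt,
      hΔ.eventually_nhds] with ζ h1 h2 h3 h4 hne
    have hstrict : HasStrictDerivAt P (deriv P ζ) ζ := h2.hasStrictDerivAt
    have hne' := h1 hne
    have hinv := hstrict.to_localInverse hne'
    have hright := hstrict.eventually_right_inverse hne'
    set g := hstrict.localInverse P (deriv P ζ) ζ hne' with hg
    have hgζ : g (P ζ) = ζ := by
      simp [hg]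
    have hgcont : ContinuousAt g (P ζ) := hinv.hasDerivAt.continuousAt
    have heq : Δ =ᶠ[𝓝 (P ζ)] fun w => G (g w) := by
      have ht : Tendsto g (𝓝 (P ζ)) (𝓝 ζ) := by
        have := hgcont.tendsto
        rwa [hgζ] at this
      filter_upwards [ht.eventually h4, hright] with w hw1 hw2
      rw [← hw1, hw2]
    rw [heq.differentiableAt_iff]
    apply DifferentiableAt.comp (P ζ) (g := G) (f := g)
    · rw [hgζ]
      exact h3.differentiableAt
    · exact hinv.hasDerivAt.differentiableAt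
  have hd : ∀ᶠ z in 𝓝[≠] (P ζ₀), DifferentiableAt ℂ Δ z := by
    rw [eventually_nhdsWithin_iff]
    have := hopen (image_mem_map hgood)
    filter_upwards [this] with z hz hne
    obtain ⟨ζ, hζ, rfl⟩ := hz
    apply hζ
    rintro rfl
    exact hne rfl
  have hc : ContinuousAt Δ (P ζ₀) := by
    have h0 : Δ (P ζ₀) = G ζ₀ := hΔ.self_of_nhds
    have h1 : Tendsto Δ (map P (𝓝 ζ₀)) (𝓝 (G ζ₀)) := by
      rw [tendsto_map'_iff]
      apply Tendsto.congr' _ hG.continuousAt.tendsto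
      filter_upwards [hΔ] with ζ hζ
      simp [hζ]
    unfold ContinuousAt
    rw [h0]
    exact h1.mono_left hopen
  exact (Complex.analyticAt_of_differentiable_on_punctured_nhds_of_continuousAt hd hc).differentiableAt

end Pool.Agent.Lib.MP_e6fbad_gt
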