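import Pool.Agent.Lib.MP_e6fbad_gt.Core

open Set Filter Topology Function
open scoped Manifold

namespace Pool.Agent.Lib.MP_e6fbad_gt

variable {R : Type*} [TopologicalSpace R] [ChartedSpace ℂ R] [IsManifold 𝓘(ℂ) 1 R]

theorem comp_eq_of_two [T2Space R] [ConnectedSpace R] {p q : R → ℂ} {τ₁ τ₂ : R → R}
    (P : Proj p τ₁) (Q : Proj q τ₂) (hF : (range p)ᶜ.Finite)
    {a : ℂ} {ε : ℝ} (hε : 0 < ε) (hK : IsCompact (p ⁻¹' Metric.closedBall a ε))
    (hfix : {x | τ₂ x = x}.Infinite) : ∀ x, p (τ₂ x) = p x := by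
  classical
  have hpcont : Continuous p := P.hol.continuous
  have hτcont : Continuous τ₂ := Q.holτ.continuous
  have hqcont : Continuous q := Q.hol.continuous
  have hτinj : Injective τ₂ := fun x y h => by rw [← Q.inv x, ← Q.inv y, h]
  set φ₁ : R → ℂ := fun x => p x - a with hφ₁
  set φ₂ : R → ℂ := fun x => p (τ₂ x) - a with hφ₂
  have hφ₁d : MDifferentiable 𝓘(ℂ) 𝓘(ℂ) φ₁ := P.hol.sub mdifferentiable_const
  have hφ₂d : MDifferentiable 𝓘(ℂ) 𝓘(ℂ) φ₂ := (P.hol.comp Q.holτ).sub mdifferentiable_const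
  set H : R → ℂ := fun x => ((φ₁ x)⁻¹ - (φ₂ x)⁻¹) ^ 2 with hH
  have hHinv : ∀ x, H (τ₂ x) = H x := by
    intro x
    simp only [hH, hφ₁, hφ₂, Q.inv]
    ring
  set Δ : ℂ → ℂ := Function.extend q H 0 with hΔ
  have hfac : H.FactorsThrough q := by
    intro x y hxy
    rcases (Q.fib x y).1 hxy with h | h
    · rw [h]
    · rw [h, hHinv]
  have hΔq : ∀ x, Δ (q x) = H x := fun x => hfac.extend_apply 0 x
  -- the exceptional set
  set V : Set R := {x | φ₁ x = 0 ∨ φ₂ x = 0} with hV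
  have hVfin : V.Finite := by
    have h1 : {x | φ₁ x = 0}.Finite := by
      apply (P.finite_fiber' a).subset
      intro x hx
      exact sub_eq_zero.1 hx
    have h2 : {x | φ₂ x = 0}.Finite := by
      have : {x | φ₂ x = 0} = τ₂ ⁻¹' {x | φ₁ x = 0} := by
        ext x; simp [hφ₁, hφ₂]
      rw [this]
      exact h1.preimage hτinj.injOn
    exact h1.union h2
  set T : Set ℂ := q '' V with hT
  have hTfin : T.Finite := hVfin.image q
  set D : Set ℂ := range q with hD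
  have hDo : IsOpen D := Q.isOpen_range
  have hL : LiouvilleSet D := liouvilleSet_range P hF Q.hol
  -- differentiability of Δ off T
  have hΔd : ∀ z ∈ D, z ∉ T → DifferentiableAt ℂ Δ z := by
    rintro _ ⟨x, rfl⟩ hx
    have hxV : x ∉ V := fun h => hx ⟨x, h, rfl⟩
    apply descent (Q.finite_fiber x) (Eventually.of_forall Q.hol) (H := H) _
      (Eventually.of_forall hΔq)
    have hVo : ∀ᶠ y in 𝓝 x, y ∉ V := hVfin.isClosed.isOpen_compl.mem_nhds hxV
    filter_upwards [hVo] with y hy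
    have hy1 : φ₁ y ≠ 0 := fun h => hy (Or.inl h)
    have hy2 : φ₂ y ≠ 0 := fun h => hy (Or.inr h)
    have hd1 : DifferentiableAt ℂ (fun w : ℂ × ℂ => ((w.1)⁻¹ - (w.2)⁻¹) ^ 2) (φ₁ y, φ₂ y) := by
      have e1 : DifferentiableAt ℂ (fun w : ℂ × ℂ => (w.1)⁻¹) (φ₁ y, φ₂ y) :=
        (differentiableAt_inv (by simpa using hy1)).comp (φ₁ y, φ₂ y) differentiableAt_fst
      have e2 : DifferentiableAt ℂ (fun w : ℂ × ℂ => (w.2)⁻¹) (φ₁ y, φ₂ y) :=
        (differentiableAt_inv (by simpa using hy2)).comp (φ₁ y, φ₂ y) differentiableAt_snd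
      exact (e1.sub e2).pow 2
    have hd2 : MDifferentiableAt 𝓘(ℂ) 𝓘(ℂ, ℂ × ℂ) (fun y => (φ₁ y, φ₂ y)) y :=
      (hφ₁d y).prodMk_space (hφ₂d y)
    exact hd1.mdifferentiableAt.comp y hd2
  -- pole orders
  have hord : ∀ t ∈ T, ∃ k : ℕ, ∀ j, k ≤ j → ∃ C : ℝ, ∀ᶠ z in 𝓝[≠] t, ‖z - t‖ ^ j * ‖Δ z‖ ≤ C := by
    rintro _ ⟨v, hv, rfl⟩
    apply pole_order (φ₁ := φ₁) (φ₂ := φ₂) (Q.finite_fiber v) (Eventually.of_forall Q.hol)
      (Eventually.of_forall hφ₁d) (Eventually.of_forall hφ₂d) _ _ hΔq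
    · intro h
      apply not_eventually_const (P.finite_fiber v)
      have h0 := h.self_of_nhds
      filter_upwards [h] with y hy
      rw [sub_eq_zero.1 hy, sub_eq_zero.1 h0]
    · intro h
      have hfin2 : ((fun x => p (τ₂ x)) ⁻¹' {(fun x => p (τ₂ x)) v}).Finite := by
        have : ((fun x => p (τ₂ x)) ⁻¹' {(fun x => p (τ₂ x)) v}) = τ₂ ⁻¹' (p ⁻¹' {p (τ₂ v)}) := by
          ext x; simp
        rw [this]
        exact (P.finite_fiber (τ₂ v)).preimage hτinj.injOn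
      apply not_eventually_const hfin2
      have h0 := h.self_of_nhds
      filter_upwards [h] with y hy
      show p (τ₂ y) = p (τ₂ v)
      rw [sub_eq_zero.1 hy, sub_eq_zero.1 h0]
  choose! kf hkf using hord
  set k : ℕ := hTfin.toFinset.sup kf with hk
  have hkk : ∀ t ∈ T, ∃ C : ℝ, ∀ᶠ z in 𝓝[≠] t, ‖z - t‖ ^ k * ‖Δ z‖ ≤ C := by
    intro t ht
    exact hkf t ht k (Finset.le_sup (f := kf) (hTfin.mem_toFinset.2 ht))
  set Pr : ℂ → ℂ := fun z => ∏ t ∈ hTfin.toFinset, (z - t) ^ k with hPr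
  have hPrd : Differentiable ℂ Pr := by
    intro z
    apply DifferentiableAt.fun_finsetProd
    intro t _
    exact (differentiableAt_id.sub_const t).pow k
  set Θ₀ : ℂ → ℂ := fun z => Δ z * Pr z with hΘ₀
  obtain ⟨Θ, hΘd, hΘeq⟩ := exists_extension hDo hTfin (f := Θ₀)
    (fun z hz hzT => (hΔd z hz hzT).mul (hPrd z)) (by
      intro t ht _
      obtain ⟨C, hC⟩ := hkk t ht
      set Pr' : ℂ → ℂ := fun z => ∏ s ∈ hTfin.toFinset.erase t, (z - s) ^ k with hPr'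
      have hPr'c : Continuous Pr' := by
        apply continuous_finsetProd
        intro s _
        exact (continuous_id.sub continuous_const).pow k
      have hsplit : ∀ z, Pr z = (z - t) ^ k * Pr' z := by
        intro z
        simp only [hPr, hPr']
        exact (Finset.mul_prod_erase _ (fun s => (z - s) ^ k) (hTfin.mem_toFinset.2 ht)).symm
      have hb : ∀ᶠ z in 𝓝[≠] t, ‖Pr' z‖ ≤ ‖Pr' t‖ + 1 := by
        apply mem_nhdsWithin_of_mem_nhds
        have h1 : ContinuousAt (fun z => ‖Pr' z‖) t := hPr'c.continuousAt.norm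
        exact (h1.eventually (gt_mem_nhds (lt_add_one _))).mono fun y hy => hy.le
      refine ⟨C * (‖Pr' t‖ + 1), ?_⟩
      rw [eventually_map]
      filter_upwards [hC, hb] with z h1 h2
      have hC0 : 0 ≤ C := le_trans (by positivity) h1
      calc ‖Θ₀ z‖ = (‖z - t‖ ^ k * ‖Δ z‖) * ‖Pr' z‖ := by
            simp only [hΘ₀, hsplit, norm_mul, norm_pow]
            ring
        _ ≤ C * (‖Pr' t‖ + 1) := by gcongr)
  -- the compact set
  set K₀ : Set R := p ⁻¹' Metric.closedBall a ε with hK₀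
  have hτhomeo : IsCompact (τ₂ ⁻¹' K₀) := by
    have : τ₂ ⁻¹' K₀ = τ₂ '' K₀ := by
      ext x
      constructor
      · intro hx
        exact ⟨τ₂ x, hx, Q.inv x⟩
      · rintro ⟨y, hy, rfl⟩
        simpa [Q.inv] using hy
    rw [this]
    exact hK.image hτcont
  set K : Set ℂ := q '' (K₀ ∪ τ₂ ⁻¹' K₀) with hKdef
  have hKc : IsCompact K := (hK.union hτhomeo).image hqcont
  have hKD : K ⊆ D := by
    rintro _ ⟨x, _, rfl⟩
    exact mem_range_self x
  have hTK : T ⊆ K := by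
    rintro _ ⟨v, hv, rfl⟩
    refine ⟨v, ?_, rfl⟩
    rcases hv with hv | hv
    · left
      have : p v = a := sub_eq_zero.1 hv
      simp [hK₀, this, hε.le]
    · right
      have : p (τ₂ v) = a := sub_eq_zero.1 hv
      simp [hK₀, this, hε.le]
  set N : ℕ := k * hTfin.toFinset.card with hN
  set C₁ : ℝ := ∏ t ∈ hTfin.toFinset, (1 + ‖t‖) ^ k with hC₁
  have hC₁0 : 0 ≤ C₁ := Finset.prod_nonneg fun t _ => by positivity
  have hPrb : ∀ z, ‖Pr z‖ ≤ C₁ * (1 + ‖z‖) ^ N := by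
    intro z
    have h1 : ‖Pr z‖ = ∏ t ∈ hTfin.toFinset, ‖z - t‖ ^ k := by
      simp only [hPr, norm_prod, norm_pow]
    have h2 : ∏ t ∈ hTfin.toFinset, ‖z - t‖ ^ k ≤
        ∏ t ∈ hTfin.toFinset, ((1 + ‖t‖) * (1 + ‖z‖)) ^ k := by
      apply Finset.prod_le_prod
      · intro t _; positivity
      · intro t _
        apply pow_le_pow_left₀ (norm_nonneg _)
        have h3 := norm_sub_le z t
        nlinarith [norm_nonneg z, norm_nonneg t, mul_nonneg (norm_nonneg z) (norm_nonneg t)]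
    rw [h1]
    refine h2.trans (le_of_eq ?_)
    simp only [mul_pow, Finset.prod_mul_distrib, Finset.prod_const, hC₁, hN]
    rw [← pow_mul]
  have hgrow : ∀ z ∈ D, z ∉ K → ‖Θ z‖ ≤ ((2 * ε⁻¹) ^ 2 * C₁) * (1 + ‖z‖) ^ N := by
    rintro _ ⟨x, rfl⟩ hx
    have hxT : q x ∉ T := fun h => hx (hTK h)
    rw [hΘeq _ hxT]
    simp only [hΘ₀, norm_mul, hΔq]
    have hx1 : x ∉ K₀ := fun h => hx ⟨x, Or.inl h, rfl⟩
    have hx2 : τ₂ x ∉ K₀ := fun h => hx ⟨x, Or.inr h, rfl⟩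
    have h1 : ε ≤ ‖φ₁ x‖ := by
      by_contra hcon
      apply hx1
      simp only [hK₀, mem_preimage, Metric.mem_closedBall, dist_eq_norm]
      exact (not_le.1 hcon).le
    have h2 : ε ≤ ‖φ₂ x‖ := by
      by_contra hcon
      apply hx2
      simp only [hK₀, mem_preimage, Metric.mem_closedBall, dist_eq_norm]
      exact (not_le.1 hcon).le
    have h3 : ‖H x‖ ≤ (2 * ε⁻¹) ^ 2 := by
      simp only [hH, norm_pow]
      apply pow_le_pow_left₀ (norm_nonneg _)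
      calc ‖(φ₁ x)⁻¹ - (φ₂ x)⁻¹‖ ≤ ‖(φ₁ x)⁻¹‖ + ‖(φ₂ x)⁻¹‖ := norm_sub_le _ _
        _ = ‖φ₁ x‖⁻¹ + ‖φ₂ x‖⁻¹ := by rw [norm_inv, norm_inv]
        _ ≤ ε⁻¹ + ε⁻¹ := add_le_add (inv_anti₀ hε h1) (inv_anti₀ hε h2)
        _ = 2 * ε⁻¹ := by ring
    calc ‖H x‖ * ‖Pr (q x)‖ ≤ (2 * ε⁻¹) ^ 2 * (C₁ * (1 + ‖q x‖) ^ N) := by
          gcongr
          exact hPrb _
      _ = _ := by ring
  -- zeros
  have hzeros : {z | z ∈ D ∧ Θ z = 0}.Infinite := by
    have h1 : (q '' {x | τ₂ x = x}).Infinite := by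
      apply hfix.image
      intro x hx y hy hxy
      rcases (Q.fib x y).1 hxy with h | h
      · exact h.symm
      · rw [h]; exact hx.symm
    apply (h1.sdiff hTfin).mono
    rintro _ ⟨⟨x, hx, rfl⟩, hxT⟩
    refine ⟨mem_range_self x, ?_⟩
    rw [hΘeq _ hxT]
    simp only [hΘ₀, hΔq, hH, hφ₁, hφ₂]
    rw [show τ₂ x = x from hx]
    simp
  have hΘ0 := eq_zero_of_growth hDo hL N Θ ((2 * ε⁻¹) ^ 2 * C₁) K (by positivity) hKc hKD hΘd
    hgrow hzeros
  -- conclusion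
  have hoff : ∀ x, q x ∉ T → p (τ₂ x) = p x := by
    intro x hx
    have h1 := hΘ0 (q x) (mem_range_self x)
    rw [hΘeq _ hx] at h1
    simp only [hΘ₀, hΔq] at h1
    have h2 : Pr (q x) ≠ 0 := by
      simp only [hPr]
      rw [Finset.prod_ne_zero_iff]
      intro t ht
      apply pow_ne_zero
      rw [sub_ne_zero]
      rintro rfl
      exact hx (hTfin.mem_toFinset.1 ht)
    have h3 : H x = 0 := (mul_eq_zero.1 h1).resolve_right h2
    simp only [hH] at h3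
    have h4 := pow_eq_zero_iff (two_ne_zero) |>.1 h3
    have h5 := inv_injective (sub_eq_zero.1 h4)
    simp only [hφ₁, hφ₂] at h5
    exact (sub_left_injective h5).symm
  have hne : ∀ x : R, (𝓝[≠] x).NeBot := punctured_neBot
  have hdense : Dense ((q ⁻¹' T)ᶜ) := by
    have := (dense_univ (X := R)).sdiff_finite (Q.finite_preimage hTfin)
    rwa [← compl_eq_univ_sdiff] at this
  have hcl : IsClosed {x | p (τ₂ x) = p x} := isClosed_eq (hpcont.comp hτcont) hpcont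
  intro x
  have hsub : closure ((q ⁻¹' T)ᶜ) ⊆ {x | p (τ₂ x) = p x} :=
    closure_minimal (fun y hy => hoff y hy) hcl
  rw [hdense.closure_eq] at hsub
  exact hsub (mem_univ x)

/-- Uniqueness in normalized form. -/
theorem unique_of_two [T2Space R] [ConnectedSpace R] {p q : R → ℂ} {τ₁ τ₂ : R → R}
    (P : Proj p τ₁) (Q : Proj q τ₂) (hF : (range p)ᶜ.Finite)
    {a : ℂ} {ε : ℝ} (hε : 0 < ε) (hK : IsCompact (p ⁻¹' Metric.closedBall a ε))
    (hfix : {x | τ₂ x = x}.Infinite) (hne : ∃ x, τ₂ x ≠ x) : ∀ x, τ₂ x = τ₁ x := by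
  have hcomp := comp_eq_of_two P Q hF hε hK hfix
  have hor : ∀ x, τ₂ x = x ∨ τ₂ x = τ₁ x := fun x => (P.fib x (τ₂ x)).1 (hcomp x).symm
  by_contra hcon
  push Not at hcon
  obtain ⟨x, hx⟩ := hcon
  have hopen : IsOpen {x | τ₂ x ≠ τ₁ x} := isOpen_ne_fun Q.holτ.continuous P.holτ.continuous
  have hev : ∀ᶠ y in 𝓝 x, τ₂ y = y := by
    filter_upwards [hopen.mem_nhds hx] with y hy
    exact (hor y).resolve_right hy
  have := punctured_neBot x
  have hfreq : ∃ᶠ y in 𝓝[≠] x, τ₂ y = y := (hev.filter_mono nhdsWithin_le_nhds).frequently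
  obtain ⟨y, hy⟩ := hne
  exact hy (eq_id_of_frequently Q.holτ hfreq y)

end Pool.Agent.Lib.MP_e6fbad_gt
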