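import Pool.Agent.Lib.MP_e6fbad_gt.Planar
import Pool.Agent.Lib.MP_e6fbad_gt.Growth
import Pool.Agent.Lib.MP_e6fbad_gt.Local

open Set Filter Topology Function
open scoped Manifold

namespace Pool.Agent.Lib.MP_e6fbad_gt

variable {R : Type*} [TopologicalSpace R] [ChartedSpace ℂ R]

theorem punctured_neBot (x : R) : (𝓝[≠] x).NeBot := by
  set e := chartAt ℂ x with he
  have hx : x ∈ e.source := mem_chart_source ℂ x
  by_contra hcon
  rw [not_neBot] at hcon
  have h1 : ∀ᶠ y in 𝓝 x, y = x := by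
    have : ∀ᶠ y in 𝓝[≠] x, False := by rw [hcon]; exact eventually_bot
    rw [eventually_nhdsWithin_iff] at this
    filter_upwards [this] with y hy
    by_contra h
    exact hy h
  have h2 : ∀ᶠ ζ in 𝓝 (e x), e.symm ζ = x := by
    have hc : Tendsto e.symm (𝓝 (e x)) (𝓝 x) := by
      have := e.continuousAt_symm (e.map_source hx)
      unfold ContinuousAt at this
      rwa [e.left_inv hx] at this
    exact hc.eventually h1
  have h3 : ∀ᶠ ζ in 𝓝 (e x), ζ = e x := by
    filter_upwards [h2, e.open_target.mem_nhds (e.map_source hx)] with ζ h h'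
    rw [← h, e.right_inv h']
  have h4 : (𝓝[≠] (e x)).NeBot := inferInstance
  apply h4.ne
  rw [← empty_mem_iff_bot, mem_nhdsWithin_iff_eventually]
  filter_upwards [h3] with ζ h h'
  exact h' h

theorem tendsto_chart_symm (x : R) :
    Tendsto (chartAt ℂ x).symm (𝓝 (chartAt ℂ x x)) (𝓝 x) := by
  have hx : x ∈ (chartAt ℂ x).source := mem_chart_source ℂ x
  have := (chartAt ℂ x).continuousAt_symm ((chartAt ℂ x).map_source hx)
  unfold ContinuousAt at this
  rwa [(chartAt ℂ x).left_inv hx] at this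

theorem tendsto_chart (x : R) : Tendsto (chartAt ℂ x) (𝓝 x) (𝓝 (chartAt ℂ x x)) :=
  (chartAt ℂ x).continuousAt (mem_chart_source ℂ x)

/-- transfer of eventual statements through the chart -/
theorem eventually_chart_iff {x : R} {Q : R → Prop} :
    (∀ᶠ ζ in 𝓝 (chartAt ℂ x x), Q ((chartAt ℂ x).symm ζ)) ↔ ∀ᶠ y in 𝓝 x, Q y := by
  constructor
  · intro h
    have h2 := (tendsto_chart x).eventually h
    filter_upwards [h2, (chartAt ℂ x).open_source.mem_nhds (mem_chart_source ℂ x)] with y hy hy'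
    rwa [(chartAt ℂ x).left_inv hy'] at hy
  · intro h
    exact (tendsto_chart_symm x).eventually h

variable [IsManifold 𝓘(ℂ) 1 R]

theorem differentiableAt_chart {f : R → ℂ} {x y : R} (hy : y ∈ (chartAt ℂ x).source)
    (hf : MDifferentiableAt 𝓘(ℂ) 𝓘(ℂ) f y) :
    DifferentiableAt ℂ (f ∘ (chartAt ℂ x).symm) (chartAt ℂ x y) := by
  have h := (mdifferentiableAt_iff_of_mem_source (I := 𝓘(ℂ)) (I' := 𝓘(ℂ)) (x := x)
    (y := f y) hy (by simp)).1 hf
  simpa [differentiableWithinAt_univ] using h.2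

theorem analyticAt_chart {f : R → ℂ} {x : R}
    (hf : ∀ᶠ y in 𝓝 x, MDifferentiableAt 𝓘(ℂ) 𝓘(ℂ) f y) :
    AnalyticAt ℂ (f ∘ (chartAt ℂ x).symm) (chartAt ℂ x x) := by
  rw [Complex.analyticAt_iff_eventually_differentiableAt]
  have h1 := eventually_chart_iff.2 hf
  filter_upwards [h1, (chartAt ℂ x).open_target.mem_nhds
    ((chartAt ℂ x).map_source (mem_chart_source ℂ x))] with ζ h2 h3
  have h4 := differentiableAt_chart ((chartAt ℂ x).map_target h3) h2
  rwa [(chartAt ℂ x).right_inv h3] at h4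

/-- A map with a finite fibre is not locally constant. -/
theorem not_eventually_const [T1Space R] {p : R → ℂ} {x : R} (hfin : (p ⁻¹' {p x}).Finite) :
    ¬ ∀ᶠ y in 𝓝 x, p y = p x := by
  intro h
  have := punctured_neBot x
  have h2 : {y | p y = p x} ∈ 𝓝 x := h
  have h3 := infinite_of_mem_nhds x h2
  exact h3 hfin

theorem not_eventually_const_chart [T1Space R] {p : R → ℂ} {x : R}
    (hfin : (p ⁻¹' {p x}).Finite) :
    ¬ ∀ᶠ ζ in 𝓝 (chartAt ℂ x x), (p ∘ (chartAt ℂ x).symm) ζ =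
      (p ∘ (chartAt ℂ x).symm) (chartAt ℂ x x) := by
  intro h
  apply not_eventually_const hfin
  have h2 : ∀ᶠ ζ in 𝓝 (chartAt ℂ x x), p ((chartAt ℂ x).symm ζ) = p x := by
    filter_upwards [h] with ζ hζ
    simpa [(chartAt ℂ x).left_inv (mem_chart_source ℂ x)] using hζ
  exact eventually_chart_iff.1 h2

theorem nhds_le_map [T1Space R] {p : R → ℂ} {x : R} (hfin : (p ⁻¹' {p x}).Finite)
    (hp : ∀ᶠ y in 𝓝 x, MDifferentiableAt 𝓘(ℂ) 𝓘(ℂ) p y) : 𝓝 (p x) ≤ map p (𝓝 x) := by
  have h1 := (analyticAt_chart hp).eventually_constant_or_nhds_le_map_nhds.resolve_left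
    (not_eventually_const_chart hfin)
  have h2 : (p ∘ (chartAt ℂ x).symm) (chartAt ℂ x x) = p x := by
    simp [(chartAt ℂ x).left_inv (mem_chart_source ℂ x)]
  rw [h2] at h1
  refine h1.trans ?_
  rw [← Filter.map_map]
  exact map_mono (tendsto_chart_symm x)

/-- Descent of holomorphic functions along a holomorphic map with finite fibres. -/
theorem descent [T1Space R] {p H : R → ℂ} {Δ : ℂ → ℂ} {x : R} (hfin : (p ⁻¹' {p x}).Finite)
    (hp : ∀ᶠ y in 𝓝 x, MDifferentiableAt 𝓘(ℂ) 𝓘(ℂ) p y)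
    (hH : ∀ᶠ y in 𝓝 x, MDifferentiableAt 𝓘(ℂ) 𝓘(ℂ) H y)
    (hΔ : ∀ᶠ y in 𝓝 x, Δ (p y) = H y) : DifferentiableAt ℂ Δ (p x) := by
  have h2 : (p ∘ (chartAt ℂ x).symm) (chartAt ℂ x x) = p x := by
    simp [(chartAt ℂ x).left_inv (mem_chart_source ℂ x)]
  have := descent_planar (analyticAt_chart hp) (analyticAt_chart hH)
    (not_eventually_const_chart hfin) (Δ := Δ) (eventually_chart_iff.2 hΔ)
  rwa [h2] at this

/-- Local identity principle for a holomorphic self-map. -/
theorem eventually_eq_id [T2Space R] {τ : R → R} (hτ : MDifferentiable 𝓘(ℂ) 𝓘(ℂ) τ) {x : R}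
    (h : ∃ᶠ y in 𝓝[≠] x, τ y = y) : ∀ᶠ y in 𝓝 x, τ y = y := by
  have hcont : Continuous τ := hτ.continuous
  have hfix : τ x = x := by
    have hcl : IsClosed {y | τ y = y} := isClosed_eq hcont continuous_id
    by_contra hne
    apply h
    have : {y | τ y = y}ᶜ ∈ 𝓝 x := hcl.isOpen_compl.mem_nhds hne
    exact mem_nhdsWithin_of_mem_nhds this
  set e := chartAt ℂ x with he
  have hxs : x ∈ e.source := mem_chart_source ℂ x
  have hsrc : ∀ᶠ y in 𝓝 x, τ y ∈ e.source := by
    have : Tendsto τ (𝓝 x) (𝓝 x) := by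
      have := hcont.tendsto x
      rwa [hfix] at this
    exact this.eventually (e.open_source.mem_nhds hxs)
  have hsrc' := hsrc.and (e.open_source.mem_nhds hxs)
  -- analyticity of the chart expression
  have hdiff : ∀ᶠ y in 𝓝 x, MDifferentiableAt 𝓘(ℂ) 𝓘(ℂ) (e ∘ τ) y := by
    filter_upwards [hsrc'] with y hy
    apply MDifferentiableAt.comp y _ (hτ y)
    exact mdifferentiableAt_atlas (chart_mem_atlas ℂ x) hy.1
  have han : AnalyticAt ℂ ((e ∘ τ) ∘ e.symm) (e x) := analyticAt_chart hdiff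
  have hid : AnalyticAt ℂ (fun ζ : ℂ => ζ) (e x) := analyticAt_id
  have hfreq : ∃ᶠ ζ in 𝓝[≠] (e x), ((e ∘ τ) ∘ e.symm) ζ = ζ := by
    intro hcon
    apply h
    rw [eventually_nhdsWithin_iff] at hcon
    rw [eventually_nhdsWithin_iff]
    have h3 := (tendsto_chart x).eventually hcon
    filter_upwards [h3, e.open_source.mem_nhds hxs] with y hy hys hne heq
    have hne2 : chartAt ℂ x y ∈ ({e x}ᶜ : Set ℂ) := by
      intro h4
      exact hne (e.injOn hys hxs h4)
    apply hy hne2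
    simp only [comp_apply]
    have h5 : e.symm (chartAt ℂ x y) = y := e.left_inv hys
    rw [h5, heq]
  have hev := (han.frequently_eq_iff_eventually_eq hid).1 hfreq
  have hev2 := (tendsto_chart x).eventually hev
  filter_upwards [hev2, hsrc'] with y hy hys
  simp only [comp_apply] at hy
  have h5 : e.symm (chartAt ℂ x y) = y := e.left_inv hys.2
  rw [h5] at hy
  exact e.injOn hys.1 hys.2 hy

/-- Global identity principle for a holomorphic self-map. -/
theorem eq_id_of_frequently [T2Space R] [PreconnectedSpace R] {τ : R → R}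
    (hτ : MDifferentiable 𝓘(ℂ) 𝓘(ℂ) τ) {x : R} (h : ∃ᶠ y in 𝓝[≠] x, τ y = y) (y : R) :
    τ y = y := by
  set A : Set R := {x | ∀ᶠ y in 𝓝 x, τ y = y} with hA
  have hopen : IsOpen A := by
    rw [isOpen_iff_mem_nhds]
    intro z hz
    exact eventually_eventually_nhds.2 hz
  have hclosed : IsClosed A := by
    rw [← closure_subset_iff_isClosed]
    intro z hz
    by_cases hzA : z ∈ A
    · exact hzA
    · apply eventually_eq_id hτ
      intro hcon
      rw [eventually_nhdsWithin_iff] at hcon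
      obtain ⟨w, hw1, hw2⟩ := mem_closure_iff_nhds.1 hz _ hcon
      have hwz : w ≠ z := by
        rintro rfl
        exact hzA hw2
      exact hw1 hwz hw2.self_of_nhds
  have hne : A.Nonempty := ⟨x, eventually_eq_id hτ h⟩
  have := IsClopen.eq_univ ⟨hclosed, hopen⟩ hne
  have hy : y ∈ A := by rw [this]; trivial
  exact hy.self_of_nhds

end Pool.Agent.Lib.MP_e6fbad_gt
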