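import Pool.Agent.Lib.MP_e6fbad_gt.Defs
import Pool.Agent.Lib.MP_e6fbad_gt.Main

open Set Filter Topology
open scoped Manifold ContDiff

namespace Pool.Agent.Lib.MP_e6fbad_gt

variable {R : Type*} [TopologicalSpace R] [ChartedSpace ℂ R]

/-! ### Affine normalization -/

/-- Moebius coordinate sending `c` to infinity. -/
noncomputable def mob (c z : OnePoint ℂ) : ℂ :=
  c.elim (coordZ z) (fun c₀ => z.elim 0 (fun w => (w - c₀)⁻¹))

/-- inverse of `mob c`. -/
noncomputable def nob (c : OnePoint ℂ) (w : ℂ) : OnePoint ℂ := by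
  classical
  exact c.elim (w : OnePoint ℂ) (fun c₀ => if w = 0 then OnePoint.infty else ((c₀ + w⁻¹ : ℂ) : OnePoint ℂ))

theorem mob_nob (c : OnePoint ℂ) (w : ℂ) : mob c (nob c w) = w := by
  induction c using OnePoint.rec with
  | infty => simp [mob, nob, coordZ]
  | coe c₀ =>
    by_cases hw : w = 0
    · simp [mob, nob, hw]
    · simp [mob, nob, hw]

theorem nob_mob {c z : OnePoint ℂ} (hz : z ≠ c) : nob c (mob c z) = z := by
  induction c using OnePoint.rec with
  | infty =>
    induction z using OnePoint.rec with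
    | infty => exact absurd rfl hz
    | coe z₀ => simp [mob, nob, coordZ]
  | coe c₀ =>
    induction z using OnePoint.rec with
    | infty => simp [mob, nob]
    | coe z₀ =>
      have h : z₀ - c₀ ≠ 0 := by
        rw [sub_ne_zero]
        rintro rfl
        exact hz rfl
      simp [mob, nob, h]

theorem nob_ne (c : OnePoint ℂ) (w : ℂ) : nob c w ≠ c := by
  induction c using OnePoint.rec with
  | infty => simp [nob]
  | coe c₀ =>
    by_cases hw : w = 0
    · simp [nob, hw]
    · simp [nob, hw]

theorem nob_injective (c : OnePoint ℂ) : Function.Injective (nob c) := fun w w' h => by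
  rw [← mob_nob c w, ← mob_nob c w', h]

theorem continuousOn_nob (c : OnePoint ℂ) : ContinuousOn (nob c) {w | w ≠ 0} := by
  induction c using OnePoint.rec with
  | infty =>
    have : nob OnePoint.infty = fun w : ℂ => (w : OnePoint ℂ) := by
      ext w; simp [nob]
    rw [this]
    exact OnePoint.continuous_coe.continuousOn
  | coe c₀ =>
    have h1 : ContinuousOn (fun w : ℂ => ((c₀ + w⁻¹ : ℂ) : OnePoint ℂ)) {w | w ≠ 0} := by
      apply OnePoint.continuous_coe.comp_continuousOn
      apply continuousOn_const.add
      exact continuousOn_inv₀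
    apply h1.congr
    intro w hw
    have hw' : w ≠ 0 := hw
    simp [nob, hw']

variable [IsManifold 𝓘(ℂ) 1 R]

omit [IsManifold 𝓘(ℂ) 1 R] in
theorem mdifferentiable_mob {π : R → OnePoint ℂ} (hπ : IsHolomorphicToSphere π) {c : OnePoint ℂ}
    (hc : ∀ x, π x ≠ c) : MDifferentiable 𝓘(ℂ) 𝓘(ℂ) (fun x => mob c (π x)) := by
  obtain ⟨hcont, hZ, hW⟩ := hπ
  induction c using OnePoint.rec with
  | infty =>
    intro x
    exact hZ x (hc x)
  | coe c₀ =>
    intro x
    by_cases hx : π x = OnePoint.infty
    · have h0 : π x ≠ ((0 : ℂ) : OnePoint ℂ) := by rw [hx]; simp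
      have h1 := hW x h0
      have h2 : coordW (π x) = 0 := by rw [hx]; simp [coordW]
      have h3 : DifferentiableAt ℂ (fun w : ℂ => w / (1 - c₀ * w)) (coordW (π x)) := by
        apply DifferentiableAt.div differentiableAt_id
        · exact (differentiableAt_const _).sub ((differentiableAt_const _).mul differentiableAt_id)
        · rw [h2]; simp
      have h4 : MDifferentiableAt 𝓘(ℂ) 𝓘(ℂ)
          (fun y => coordW (π y) / (1 - c₀ * coordW (π y))) x :=
        MDifferentiableAt.comp (g := fun w : ℂ => w / (1 - c₀ * w)) (f := fun y => coordW (π y)) x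
          h3.mdifferentiableAt h1
      apply h4.congr_of_eventuallyEq
      have hopen : ∀ᶠ y in 𝓝 x, π y ≠ ((0 : ℂ) : OnePoint ℂ) :=
        hcont.continuousAt.eventually (isOpen_ne.mem_nhds h0)
      filter_upwards [hopen] with y hy
      have hyc := hc y
      generalize π y = z at hy hyc
      induction z using OnePoint.rec with
      | infty => simp [mob, coordW]
      | coe z₀ =>
        have hz0 : z₀ ≠ 0 := by
          rintro rfl
          exact hy rfl
        have hzc : z₀ - c₀ ≠ 0 := by
          rw [sub_ne_zero]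
          rintro rfl
          exact hyc rfl
        have h5 : 1 - c₀ * z₀⁻¹ ≠ 0 := by
          have h6 : 1 - c₀ * z₀⁻¹ = (z₀ - c₀) * z₀⁻¹ := by
            rw [sub_mul, mul_inv_cancel₀ hz0]
          rw [h6]
          exact mul_ne_zero hzc (inv_ne_zero hz0)
        simp only [mob, coordW, OnePoint.elim_some]
        rw [eq_div_iff h5]
        field_simp
    · have h1 := hZ x hx
      have h2 : coordZ (π x) - c₀ ≠ 0 := by
        have hcx := hc x
        generalize π x = z at hx hcx
        induction z using OnePoint.rec with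
        | infty => exact absurd rfl hx
        | coe z₀ =>
          simp only [coordZ, OnePoint.elim_some]
          rw [sub_ne_zero]
          rintro rfl
          exact hcx rfl
      have h3 : DifferentiableAt ℂ (fun w : ℂ => (w - c₀)⁻¹) (coordZ (π x)) :=
        (differentiableAt_id.sub_const c₀).inv h2
      have h4 : MDifferentiableAt 𝓘(ℂ) 𝓘(ℂ) (fun y => (coordZ (π y) - c₀)⁻¹) x :=
        MDifferentiableAt.comp (g := fun w : ℂ => (w - c₀)⁻¹) (f := fun y => coordZ (π y)) x
          h3.mdifferentiableAt h1
      apply h4.congr_of_eventuallyEq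
      have hopen : ∀ᶠ y in 𝓝 x, π y ≠ OnePoint.infty :=
        hcont.continuousAt.eventually (isOpen_ne.mem_nhds hx)
      filter_upwards [hopen] with y hy
      generalize π y = z at hy
      induction z using OnePoint.rec with
      | infty => exact absurd rfl hy
      | coe z₀ => simp [mob, coordZ]

/-- The fibres of a degree two branched covering are the orbits of a nontrivial deck
transformation. -/
theorem fib_of_involution [T2Space R] [ConnectedSpace R] {q : R → ℂ} {τ : R → R}
    (hq : MDifferentiable 𝓘(ℂ) 𝓘(ℂ) q) (hτ : MDifferentiable 𝓘(ℂ) 𝓘(ℂ) τ)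
    (hqτ : ∀ x, q (τ x) = q x) (hne : ∃ x, τ x ≠ x)
    (hcard : ∀ x, (q ⁻¹' {q x}).ncard = 1 ∨ (q ⁻¹' {q x}).ncard = 2) (x y : R) :
    q x = q y ↔ (y = x ∨ y = τ x) := by
  have hfin : ∀ x, (q ⁻¹' {q x}).Finite := fun x => by
    apply finite_of_ncard_ne_zero
    rcases hcard x with h | h <;> omega
  -- a fixed point is alone in its fibre
  have key : ∀ x y, τ x = x → q y = q x → y = x := by
    intro x y hx hxy
    by_contra hyx
    obtain ⟨U, W, hU, hW, hxU, hyW, hdisj⟩ := t2_separation (Ne.symm hyx)
    have hWn : q '' W ∈ 𝓝 (q x) := by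
      have := nhds_le_map (hfin y) (Eventually.of_forall hq)
      rw [hxy] at this
      exact this (image_mem_map (hW.mem_nhds hyW))
    have hτc : Tendsto τ (𝓝 x) (𝓝 x) := by
      have := hτ.continuous.tendsto x
      rwa [hx] at this
    have hev : ∀ᶠ x' in 𝓝 x, τ x' = x' := by
      filter_upwards [hU.mem_nhds hxU, hτc.eventually (hU.mem_nhds hxU),
        hq.continuous.continuousAt.eventually hWn] with x' h1 h2 h3
      obtain ⟨w, hwW, hw⟩ := h3
      by_contra hne'
      have hsub : ({x', τ x', w} : Set R) ⊆ q ⁻¹' {q x'} := by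
        intro u hu
        simp only [mem_insert_iff, mem_singleton_iff] at hu
        rcases hu with rfl | rfl | rfl
        · simp
        · simp [hqτ]
        · simpa using hw
      have h3 : ({x', τ x', w} : Set R).ncard = 3 := by
        apply ncard_eq_three.2
        refine ⟨x', τ x', w, fun h => hne' h.symm, ?_, ?_, rfl⟩
        · rintro rfl
          exact disjoint_left.1 hdisj h1 hwW
        · intro h
          rw [h] at h2
          exact disjoint_left.1 hdisj h2 hwW
      have h4 := ncard_le_ncard hsub (hfin x')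
      rcases hcard x' with h | h <;> omega
    have := punctured_neBot x
    have hfreq : ∃ᶠ y in 𝓝[≠] x, τ y = y := (hev.filter_mono nhdsWithin_le_nhds).frequently
    obtain ⟨z, hz⟩ := hne
    exact hz (eq_id_of_frequently hτ hfreq z)
  constructor
  · intro hxy
    by_cases hx : τ x = x
    · left
      exact key x y hx hxy.symm
    · by_contra hcon
      push Not at hcon
      have hsub : ({x, τ x, y} : Set R) ⊆ q ⁻¹' {q x} := by
        intro u hu
        simp only [mem_insert_iff, mem_singleton_iff] at hu
        rcases hu with rfl | rfl | rfl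
        · simp
        · simp [hqτ]
        · simpa using hxy.symm
      have h3 : ({x, τ x, y} : Set R).ncard = 3 := by
        apply ncard_eq_three.2
        exact ⟨x, τ x, y, fun h => hx h.symm, fun h => hcon.1 h.symm, fun h => hcon.2 h.symm, rfl⟩
      have h4 := ncard_le_ncard hsub (hfin x)
      rcases hcard x with h | h <;> omega
  · rintro (rfl | rfl)
    · rfl
    · exact (hqτ x).symm

/-- Normalized data attached to a hyperelliptic involution. -/
theorem exists_normalized [T2Space R] [ConnectedSpace R] {B : Set (OnePoint ℂ)}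
    {τ : R ≃ₘ^ω⟮𝓘(ℂ), 𝓘(ℂ)⟯ R} (h : IsHyperellipticInvolution B τ) :
    ∃ q : R → ℂ, Proj q τ ∧ {x | τ x = x}.Infinite ∧
      (∃ x, τ x ≠ x) ∧
      ((derivedSet B).Finite → (range q)ᶜ.Finite ∧
        ∃ (a : ℂ) (ε : ℝ), 0 < ε ∧ IsCompact (q ⁻¹' Metric.closedBall a ε)) := by
  obtain ⟨⟨hinf, hdisc, _⟩, hne, hinv, π, hπ, hπτ⟩ := h
  obtain ⟨c, hc⟩ : ∃ c, c ∈ derivedSet B := hinf.exists_accPt_principal
  have hπc : ∀ x, π x ≠ c := fun x hx => hπ.mapsTo x (hx ▸ hc)
  set q : R → ℂ := fun x => mob c (π x) with hq
  have hqd : MDifferentiable 𝓘(ℂ) 𝓘(ℂ) q := mdifferentiable_mob hπ.holomorphic hπc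
  have hτd : MDifferentiable 𝓘(ℂ) 𝓘(ℂ) τ := τ.contMDiff.mdifferentiable (by simp)
  have hqπ : ∀ x, nob c (q x) = π x := fun x => nob_mob (hπc x)
  have hfib : ∀ x, q ⁻¹' {q x} = π ⁻¹' {π x} := by
    intro x
    ext y
    simp only [mem_preimage, mem_singleton_iff]
    constructor
    · intro h
      rw [← hqπ x, ← hqπ y, h]
    · intro h
      simp only [hq, h]
  have hne' : ∃ x, τ x ≠ x := by
    by_contra hcon
    push Not at hcon
    apply hne
    ext x
    simpa using hcon x
  have hcard : ∀ x, (q ⁻¹' {q x}).ncard = 1 ∨ (q ⁻¹' {q x}).ncard = 2 := by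
    intro x
    rw [hfib]
    by_cases hx : π x ∈ B
    · left; exact hπ.card_fiber_branch _ hx
    · right; exact hπ.card_fiber _ (hπ.mapsTo x) hx
  have hP : Proj q τ := by
    refine ⟨hqd, hτd, hinv, ?_⟩
    exact fib_of_involution hqd hτd (fun x => by simp only [hq, hπτ]) hne' hcard
  refine ⟨q, hP, ?_, hne', ?_⟩
  · intro hfin
    apply hinf
    apply (hfin.image π).subset
    intro b hb
    obtain ⟨x, hx⟩ := ncard_eq_one.1 (hπ.card_fiber_branch b hb)
    have hxb : π x = b := by
      have : x ∈ π ⁻¹' {b} := by rw [hx]; rfl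
      exact this
    refine ⟨x, ?_, hxb⟩
    have : τ x ∈ π ⁻¹' {b} := by
      simp only [mem_preimage, mem_singleton_iff, hπτ, hxb]
    rw [hx] at this
    exact this
  · intro hB'
    have hsurj : ∀ w, nob c w ∉ derivedSet B → w ∈ range q := by
      intro w hw
      have hnonempty : (π ⁻¹' {nob c w}).Nonempty := by
        apply nonempty_of_ncard_ne_zero
        by_cases hwB : nob c w ∈ B
        · rw [hπ.card_fiber_branch _ hwB]; simp
        · rw [hπ.card_fiber _ hw hwB]; simp
      obtain ⟨x, hx⟩ := hnonempty
      refine ⟨x, ?_⟩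
      have : π x = nob c w := hx
      simp only [hq, this, mob_nob]
    have hfinpre : (nob c ⁻¹' derivedSet B).Finite := hB'.preimage (nob_injective c).injOn
    refine ⟨hfinpre.subset ?_, ?_⟩
    · intro w hw
      by_contra hcon
      exact hw (hsurj w hcon)
    · have hfin2 : (nob c ⁻¹' derivedSet B ∪ {0}).Finite := hfinpre.union (finite_singleton 0)
      obtain ⟨a, ha⟩ : ∃ a, a ∈ (nob c ⁻¹' derivedSet B ∪ {0})ᶜ :=
        (hfin2.infinite_compl).nonempty
      obtain ⟨ε, hε, hball⟩ := Metric.nhds_basis_closedBall.mem_iff.1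
        (hfin2.isClosed.isOpen_compl.mem_nhds ha)
      refine ⟨a, ε, hε, ?_⟩
      have heq : q ⁻¹' Metric.closedBall a ε = π ⁻¹' (nob c '' Metric.closedBall a ε) := by
        ext x
        constructor
        · intro hx
          exact ⟨q x, hx, hqπ x⟩
        · rintro ⟨w, hw, hwx⟩
          have : q x = w := by
            simp only [hq, ← hwx, mob_nob]
          show q x ∈ Metric.closedBall a ε
          rw [this]
          exact hw
      rw [heq]
      apply hπ.proper
      · apply (isCompact_closedBall a ε).image_of_continuousOn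
        apply (continuousOn_nob c).mono
        intro w hw
        have := hball hw
        rw [compl_union] at this
        exact this.2
      · rintro _ ⟨w, hw, rfl⟩
        have := hball hw
        rw [compl_union] at this
        exact this.1

end Pool.Agent.Lib.MP_e6fbad_gt
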