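import Mathlib

open Set Filter Topology Function

namespace Pool.Agent.Lib.MP_e6fbad_gt

/-- Removable singularities at finitely many points of an open set. -/
theorem exists_extension {D : Set ℂ} (hD : IsOpen D) {T : Set ℂ} (hT : T.Finite) {f : ℂ → ℂ}
    (hf : ∀ z ∈ D, z ∉ T → DifferentiableAt ℂ f z)
    (hb : ∀ t ∈ T, t ∈ D → IsBoundedUnder (· ≤ ·) (𝓝[≠] t) (fun z => ‖f z‖)) :
    ∃ g : ℂ → ℂ, (∀ z ∈ D, DifferentiableAt ℂ g z) ∧ ∀ z ∉ T, g z = f z := by
  classical
  refine ⟨fun z => if z ∈ T then limUnder (𝓝[≠] z) f else f z, ?_, ?_⟩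
  · intro z hz
    by_cases hzT : z ∈ T
    · have hclosed : IsClosed (T \ {z}) := (hT.subset sdiff_subset).isClosed
      have h1 : ∀ᶠ w in 𝓝 z, w ∉ T \ {z} := by
        apply hclosed.isOpen_compl.mem_nhds
        simp
      have heq : (fun w => if w ∈ T then limUnder (𝓝[≠] w) f else f w) =ᶠ[𝓝 z]
          update f z (limUnder (𝓝[≠] z) f) := by
        filter_upwards [h1] with w hw
        by_cases hwz : w = z
        · subst hwz
          simp [hzT]
        · have : w ∉ T := fun h => hw ⟨h, hwz⟩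
          simp [this, hwz]
      rw [heq.differentiableAt_iff]
      have hs : (D ∩ (T \ {z})ᶜ) \ {z} ∈ 𝓝[≠] z := by
        have : D ∩ (T \ {z})ᶜ ∈ 𝓝 z := by
          apply (hD.inter hclosed.isOpen_compl).mem_nhds
          exact ⟨hz, by simp⟩
        exact sdiff_mem_nhdsWithin_compl this {z}
      have hd : DifferentiableOn ℂ f ((D ∩ (T \ {z})ᶜ) \ {z}) := by
        intro w hw
        apply (hf w hw.1.1 _).differentiableWithinAt
        intro hwT
        exact hw.1.2 ⟨hwT, hw.2⟩
      have := Complex.differentiableOn_update_limUnder_insert_of_isLittleO hs hd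
        (by
          apply IsBoundedUnder.isLittleO_sub_self_inv
          obtain ⟨C, hC⟩ := hb z hzT hz
          refine ⟨C + ‖f z‖, ?_⟩
          rw [eventually_map] at hC ⊢
          filter_upwards [hC] with w hw
          exact norm_sub_le_of_le hw le_rfl)
      apply (this z (mem_insert _ _)).differentiableAt
      exact insert_mem_nhds_iff.2 hs
    · have h1 : ∀ᶠ w in 𝓝 z, w ∉ T := hT.isClosed.isOpen_compl.mem_nhds hzT
      have heq : (fun w => if w ∈ T then limUnder (𝓝[≠] w) f else f w) =ᶠ[𝓝 z] f := by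
        filter_upwards [h1] with w hw
        simp [hw]
      rw [heq.differentiableAt_iff]
      exact hf z hz hzT
  · intro z hz
    simp [hz]

/-- Liouville's theorem off a finite set. -/
theorem liouville_off_finite {T : Set ℂ} (hT : T.Finite) {f : ℂ → ℂ}
    (hf : ∀ z ∉ T, DifferentiableAt ℂ f z) {M : ℝ} (hM : ∀ z ∉ T, ‖f z‖ ≤ M) :
    ∃ c, ∀ z ∉ T, f z = c := by
  obtain ⟨g, hg, hgf⟩ := exists_extension isOpen_univ hT (f := f) (fun z _ hz => hf z hz) (by
    intro t ht _
    refine ⟨M, ?_⟩
    rw [eventually_map]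
    have h1 : ∀ᶠ w in 𝓝[≠] t, w ∉ T := by
      have hclosed : IsClosed (T \ {t}) := (hT.subset sdiff_subset).isClosed
      have h1 : ∀ᶠ w in 𝓝 t, w ∉ T \ {t} := by
        apply hclosed.isOpen_compl.mem_nhds
        simp
      rw [eventually_nhdsWithin_iff]
      filter_upwards [h1] with w hw hwt hwT
      exact hw ⟨hwT, hwt⟩
    filter_upwards [h1] with w hw using hM w hw)
  have hdense : Dense (Tᶜ) := hT.countable.dense_compl ℝ
  have hb : ∀ z, ‖g z‖ ≤ M := by
    intro z
    have hcont : Continuous fun z => ‖g z‖ := by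
      have : Continuous g := by
        rw [continuous_iff_continuousAt]
        intro z
        exact (hg z (mem_univ z)).continuousAt
      exact this.norm
    have hcl : IsClosed {z | ‖g z‖ ≤ M} := isClosed_le hcont continuous_const
    have : Tᶜ ⊆ {z | ‖g z‖ ≤ M} := by
      intro w hw
      show ‖g w‖ ≤ M
      rw [hgf w hw]
      exact hM w hw
    have h2 := hcl.closure_subset_iff.2 this
    rw [hdense.closure_eq] at h2
    exact h2 (mem_univ z)
  have hgd : Differentiable ℂ g := fun z => hg z (mem_univ z)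
  refine ⟨g 0, fun z hz => ?_⟩
  rw [← hgf z hz]
  apply hgd.apply_eq_apply_of_bounded
  rw [isBounded_iff_forall_norm_le]
  refine ⟨M, ?_⟩
  rintro _ ⟨z, rfl⟩
  exact hb z

end Pool.Agent.Lib.MP_e6fbad_gt
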